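import Pool.Agent.Helper69.MC.StB

/-!
# Project MC (MP_9583f0_gt), module CNE: the cones plane, Y, T as cut loci of linear functions
-/

set_option autoImplicit false

open Set Topology Filter MeasureTheory

namespace Pool.Agent.Helper1.MC

open Pool.Agent.Helper31.CY Pool.Agent.Helper69.MF Pool.Agent.Helper69.MC

theorem pt0 (a b c : ℝ) : pt a b c 0 = a := by simp [pt]
theorem pt1 (a b c : ℝ) : pt a b c 1 = b := by simp [pt]
theorem pt2 (a b c : ℝ) : pt a b c 2 = c := by simp [pt]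

theorem dt_pt (x : E3) (a b c : ℝ) : dt x (pt a b c) = x 0 * a + x 1 * b + x 2 * c := by
  unfold dt
  rw [pt0, pt1, pt2]

theorem dt_comb (a b : ℝ) (x y w : E3) : dt (a • x + b • y) w = a * dt x w + b * dt y w := by
  unfold dt
  simp only [PiLp.add_apply, PiLp.smul_apply, smul_eq_mul]
  ring

theorem dt_smul (t : ℝ) (x w : E3) : dt (t • x) w = t * dt x w := by
  unfold dt
  simp only [PiLp.smul_apply, smul_eq_mul]
  ring

theorem ext3 (x y : E3) (h0 : x 0 = y 0) (h1 : x 1 = y 1) (h2 : x 2 = y 2) : x = y := by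
  ext i
  fin_cases i
  · exact h0
  · exact h1
  · exact h2

theorem mem_Cn2 (v : Fin 2 → E3) (x : E3) : x ∈ Cn v ↔ dt x (v 0) = dt x (v 1) := by
  constructor
  · rintro ⟨i, j, hij, he, -⟩
    fin_cases i <;> fin_cases j <;> simp_all
  · intro h
    refine ⟨0, 1, by decide, h, ?_⟩
    intro k
    fin_cases k
    · exact le_rfl
    · exact h.le

theorem mem_Cn3 (v : Fin 3 → E3) (x : E3) : x ∈ Cn v ↔
    (dt x (v 0) = dt x (v 1) ∧ dt x (v 0) ≤ dt x (v 2)) ∨
    (dt x (v 0) = dt x (v 2) ∧ dt x (v 0) ≤ dt x (v 1)) ∨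
    (dt x (v 1) = dt x (v 2) ∧ dt x (v 1) ≤ dt x (v 0)) := by
  constructor
  · rintro ⟨i, j, hij, he, hm⟩
    have h0 := hm 0
    have h1 := hm 1
    have h2 := hm 2
    fin_cases i <;> fin_cases j <;> simp_all
  · rintro (⟨h, h'⟩ | ⟨h, h'⟩ | ⟨h, h'⟩)
    · refine ⟨0, 1, by decide, h, ?_⟩
      intro k
      fin_cases k
      · exact le_rfl
      · exact h.le
      · exact h'
    · refine ⟨0, 2, by decide, h, ?_⟩
      intro k
      fin_cases k
      · exact le_rfl
      · exact h'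
      · exact h.le
    · refine ⟨1, 2, by decide, h, ?_⟩
      intro k
      fin_cases k
      · exact h'
      · exact le_rfl
      · exact h.le

theorem cnY : Cn vY = Ycone := by
  ext x
  rw [mem_Cn3]
  have hs : 0 < Real.sqrt 3 := Real.sqrt_pos.mpr (by norm_num)
  have hq : Real.sqrt 3 * Real.sqrt 3 = 3 := Real.mul_self_sqrt (by norm_num)
  have e0 : dt x (vY 0) = x 0 := by
    show dt x (pt 1 0 0) = x 0
    rw [dt_pt]; ring
  have e1 : dt x (vY 1) = -(x 0 / 2) + Real.sqrt 3 / 2 * x 1 := by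
    show dt x (pt (-(1 / 2)) (Real.sqrt 3 / 2) 0) = _
    rw [dt_pt]; ring
  have e2 : dt x (vY 2) = -(x 0 / 2) - Real.sqrt 3 / 2 * x 1 := by
    show dt x (pt (-(1 / 2)) (-(Real.sqrt 3 / 2)) 0) = _
    rw [dt_pt]; ring
  rw [e0, e1, e2]
  show _ ↔ (x 0, x 1) ∈ tri
  unfold tri
  simp only [Set.mem_ofPred_eq, Prod.mk.injEq]
  constructor
  · rintro (⟨h, h'⟩ | ⟨h, h'⟩ | ⟨h, h'⟩)
    · have hx : x 1 = Real.sqrt 3 * x 0 := by
        have h1 : Real.sqrt 3 * x 1 = 3 * x 0 := by linarith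
        have h2 : Real.sqrt 3 * (x 1 - Real.sqrt 3 * x 0) = 0 := by
          have : Real.sqrt 3 * (x 1 - Real.sqrt 3 * x 0) =
            Real.sqrt 3 * x 1 - (Real.sqrt 3 * Real.sqrt 3) * x 0 := by ring
          rw [this, hq, h1]; ring
        rcases mul_eq_zero.mp h2 with h3 | h3
        · exact absurd h3 hs.ne'
        · linarith
      refine ⟨-2 * x 0, ?_, Or.inr (Or.inr ⟨by ring, ?_⟩)⟩
      · have h1 : Real.sqrt 3 * x 1 = 3 * x 0 := by linarith
        linarith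
      · rw [hx]; ring
    · have h1 : Real.sqrt 3 * x 1 = -(3 * x 0) := by linarith
      have hx : x 1 = -(Real.sqrt 3 * x 0) := by
        have h2 : Real.sqrt 3 * (x 1 + Real.sqrt 3 * x 0) = 0 := by
          have : Real.sqrt 3 * (x 1 + Real.sqrt 3 * x 0) =
            Real.sqrt 3 * x 1 + (Real.sqrt 3 * Real.sqrt 3) * x 0 := by ring
          rw [this, hq, h1]; ring
        rcases mul_eq_zero.mp h2 with h3 | h3
        · exact absurd h3 hs.ne'
        · linarith
      refine ⟨-2 * x 0, ?_, Or.inr (Or.inl ⟨by ring, ?_⟩)⟩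
      · linarith
      · rw [hx]; ring
    · have h1 : Real.sqrt 3 * x 1 = 0 := by linarith
      have hx : x 1 = 0 := by
        rcases mul_eq_zero.mp h1 with h3 | h3
        · exact absurd h3 hs.ne'
        · exact h3
      refine ⟨x 0, ?_, Or.inl ⟨rfl, hx⟩⟩
      rw [hx] at h'
      linarith
  · rintro ⟨t, ht, ⟨h0, h1⟩ | ⟨h0, h1⟩ | ⟨h0, h1⟩⟩
    · right; right
      rw [h0, h1]
      constructor
      · ring
      · linarith
    · right; left
      rw [h0, h1]
      have h3 : Real.sqrt 3 / 2 * (Real.sqrt 3 / 2 * t) = 3 / 4 * t := by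
        have : Real.sqrt 3 / 2 * (Real.sqrt 3 / 2 * t) = (Real.sqrt 3 * Real.sqrt 3) / 4 * t := by
          ring
        rw [this, hq]
      rw [h3]
      constructor
      · ring
      · linarith
    · left
      rw [h0, h1]
      have h3 : Real.sqrt 3 / 2 * (-(Real.sqrt 3 / 2 * t)) = -(3 / 4 * t) := by
        have : Real.sqrt 3 / 2 * (-(Real.sqrt 3 / 2 * t)) =
          -((Real.sqrt 3 * Real.sqrt 3) / 4 * t) := by ring
        rw [this, hq]
      rw [h3]
      constructor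
      · ring
      · linarith

theorem tv_dt (x : E3) : dt x (tv 0) = x 0 + x 1 + x 2 ∧ dt x (tv 1) = x 0 - x 1 - x 2 ∧
    dt x (tv 2) = -x 0 + x 1 - x 2 ∧ dt x (tv 3) = -x 0 - x 1 + x 2 := by
  refine ⟨?_, ?_, ?_, ?_⟩
  · show dt x (pt 1 1 1) = _
    rw [dt_pt]; ring
  · show dt x (pt 1 (-1) (-1)) = _
    rw [dt_pt]; ring
  · show dt x (pt (-1) 1 (-1)) = _
    rw [dt_pt]; ring
  · show dt x (pt (-1) (-1) 1) = _
    rw [dt_pt]; ring

/-- coordinates of `tv` -/
theorem tv_co : (tv 0 0 = 1 ∧ tv 0 1 = 1 ∧ tv 0 2 = 1) ∧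
    (tv 1 0 = 1 ∧ tv 1 1 = -1 ∧ tv 1 2 = -1) ∧
    (tv 2 0 = -1 ∧ tv 2 1 = 1 ∧ tv 2 2 = -1) ∧
    (tv 3 0 = -1 ∧ tv 3 1 = -1 ∧ tv 3 2 = 1) :=
  ⟨⟨pt0 _ _ _, pt1 _ _ _, pt2 _ _ _⟩, ⟨pt0 _ _ _, pt1 _ _ _, pt2 _ _ _⟩,
    ⟨pt0 _ _ _, pt1 _ _ _, pt2 _ _ _⟩, ⟨pt0 _ _ _, pt1 _ _ _, pt2 _ _ _⟩⟩

/-- the values of the four linear functions at a point of a sector -/
theorem sec_co (s t : ℝ) (a b x : E3) (h : x = s • a + t • b) :
    x 0 = s * a 0 + t * b 0 ∧ x 1 = s * a 1 + t * b 1 ∧ x 2 = s * a 2 + t * b 2 := by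
  subst h
  simp only [PiLp.add_apply, PiLp.smul_apply, smul_eq_mul]
  exact ⟨trivial, trivial, trivial⟩

theorem sec_mk (s t : ℝ) (a b x : E3) (h0 : x 0 = s * a 0 + t * b 0)
    (h1 : x 1 = s * a 1 + t * b 1) (h2 : x 2 = s * a 2 + t * b 2) : x = s • a + t • b := by
  apply ext3
  · simp only [PiLp.add_apply, PiLp.smul_apply, smul_eq_mul]; exact h0
  · simp only [PiLp.add_apply, PiLp.smul_apply, smul_eq_mul]; exact h1
  · simp only [PiLp.add_apply, PiLp.smul_apply, smul_eq_mul]; exact h2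

theorem cnT : Cn tv = Tcone := by
  obtain ⟨⟨a0, a1, a2⟩, ⟨b0, b1, b2⟩, ⟨c0, c1, c2⟩, ⟨d0, d1, d2⟩⟩ := tv_co
  ext x
  obtain ⟨e0, e1, e2, e3⟩ := tv_dt x
  constructor
  · rintro ⟨i, j, hij, he, hm⟩
    have h0 := hm 0
    have h1 := hm 1
    have h2 := hm 2
    have h3 := hm 3
    rw [e0] at h0
    rw [e1] at h1
    rw [e2] at h2
    rw [e3] at h3
    fin_cases i <;> fin_cases j <;>
      simp only [Fin.zero_eta, Fin.mk_one, Fin.reduceFinMk, ne_eq, not_true_eq_false, e0, e1, e2,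
        e3] at hij he h0 h1 h2 h3
    all_goals first
      | exact ⟨2, 3, by decide, (x 1 - x 0) / 2, (x 2 - x 0) / 2, by linarith, by linarith,
          sec_mk _ _ _ _ _ (by rw [c0, d0]; linarith) (by rw [c1, d1]; linarith)
            (by rw [c2, d2]; linarith)⟩
      | exact ⟨1, 3, by decide, (x 0 - x 1) / 2, (x 2 - x 1) / 2, by linarith, by linarith,
          sec_mk _ _ _ _ _ (by rw [b0, d0]; linarith) (by rw [b1, d1]; linarith)
            (by rw [b2, d2]; linarith)⟩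
      | exact ⟨1, 2, by decide, (x 0 - x 2) / 2, (x 1 - x 2) / 2, by linarith, by linarith,
          sec_mk _ _ _ _ _ (by rw [b0, c0]; linarith) (by rw [b1, c1]; linarith)
            (by rw [b2, c2]; linarith)⟩
      | exact ⟨0, 3, by decide, (x 0 + x 2) / 2, (x 2 - x 1) / 2, by linarith, by linarith,
          sec_mk _ _ _ _ _ (by rw [a0, d0]; linarith) (by rw [a1, d1]; linarith)
            (by rw [a2, d2]; linarith)⟩
      | exact ⟨0, 2, by decide, (x 0 + x 1) / 2, (x 1 - x 2) / 2, by linarith, by linarith,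
          sec_mk _ _ _ _ _ (by rw [a0, c0]; linarith) (by rw [a1, c1]; linarith)
            (by rw [a2, c2]; linarith)⟩
      | exact ⟨0, 1, by decide, (x 0 + x 1) / 2, (x 0 - x 1) / 2, by linarith, by linarith,
          sec_mk _ _ _ _ _ (by rw [a0, b0]; linarith) (by rw [a1, b1]; linarith)
            (by rw [a2, b2]; linarith)⟩
  · rintro ⟨i, j, hij, s, t, hs, ht, hx⟩
    obtain ⟨x0, x1, x2⟩ := sec_co s t _ _ x hx
    fin_cases i <;> fin_cases j <;>
      simp only [Fin.zero_eta, Fin.mk_one, Fin.reduceFinMk, ne_eq, not_true_eq_false, a0, a1, a2,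
        b0, b1, b2, c0, c1, c2, d0, d1, d2] at hij x0 x1 x2
    all_goals first
      | exact ⟨2, 3, by decide, by rw [e2, e3]; linarith, fun k => by
          fin_cases k <;> simp only [Fin.zero_eta, Fin.mk_one, Fin.reduceFinMk, e0, e1, e2, e3] <;>
            linarith⟩
      | exact ⟨1, 3, by decide, by rw [e1, e3]; linarith, fun k => by
          fin_cases k <;> simp only [Fin.zero_eta, Fin.mk_one, Fin.reduceFinMk, e0, e1, e2, e3] <;>
            linarith⟩
      | exact ⟨1, 2, by decide, by rw [e1, e2]; linarith, fun k => by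
          fin_cases k <;> simp only [Fin.zero_eta, Fin.mk_one, Fin.reduceFinMk, e0, e1, e2, e3] <;>
            linarith⟩
      | exact ⟨0, 3, by decide, by rw [e0, e3]; linarith, fun k => by
          fin_cases k <;> simp only [Fin.zero_eta, Fin.mk_one, Fin.reduceFinMk, e0, e1, e2, e3] <;>
            linarith⟩
      | exact ⟨0, 2, by decide, by rw [e0, e2]; linarith, fun k => by
          fin_cases k <;> simp only [Fin.zero_eta, Fin.mk_one, Fin.reduceFinMk, e0, e1, e2, e3] <;>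
            linarith⟩
      | exact ⟨0, 1, by decide, by rw [e0, e1]; linarith, fun k => by
          fin_cases k <;> simp only [Fin.zero_eta, Fin.mk_one, Fin.reduceFinMk, e0, e1, e2, e3] <;>
            linarith⟩

theorem vP_dt (x : E3) : dt x (vP 0) = x 0 ∧ dt x (vP 1) = -x 0 := by
  constructor
  · show dt x (pt 1 0 0) = _
    rw [dt_pt]; ring
  · show dt x (pt (-1) 0 0) = _
    rw [dt_pt]; ring

theorem cnP : Cn vP = {x : E3 | x 0 = 0} := by
  ext x
  obtain ⟨e0, e1⟩ := vP_dt x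
  rw [mem_Cn2, e0, e1]
  show _ ↔ x 0 = 0
  constructor
  · intro h; linarith
  · intro h; linarith

theorem adjP : Adj vP := by
  constructor
  · intro i
    fin_cases i
    · refine ⟨pt (-1) 0 0, ?_⟩
      intro j hj
      obtain ⟨e0, e1⟩ := vP_dt (pt (-1) 0 0)
      rw [pt0] at e0 e1
      fin_cases j
      · exact absurd rfl hj
      · show dt _ (vP 0) < dt _ (vP 1)
        rw [e0, e1]; norm_num
    · refine ⟨pt 1 0 0, ?_⟩
      intro j hj
      obtain ⟨e0, e1⟩ := vP_dt (pt 1 0 0)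
      rw [pt0] at e0 e1
      fin_cases j
      · show dt _ (vP 1) < dt _ (vP 0)
        rw [e0, e1]; norm_num
      · exact absurd rfl hj
  · intro i j hij
    refine ⟨pt 0 0 0, ?_, ?_⟩
    · obtain ⟨e0, e1⟩ := vP_dt (pt 0 0 0)
      rw [pt0] at e0 e1
      fin_cases i <;> fin_cases j <;>
        simp only [Fin.zero_eta, Fin.mk_one, ne_eq, not_true_eq_false, e0, e1] at hij ⊢
      · norm_num
      · norm_num
    · intro k hki hkj
      fin_cases i <;> fin_cases j <;> fin_cases k <;> simp_all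

theorem vY_dt (x : E3) : dt x (vY 0) = x 0 ∧
    dt x (vY 1) = -(x 0 / 2) + Real.sqrt 3 / 2 * x 1 ∧
    dt x (vY 2) = -(x 0 / 2) - Real.sqrt 3 / 2 * x 1 := by
  refine ⟨?_, ?_, ?_⟩
  · show dt x (pt 1 0 0) = x 0
    rw [dt_pt]; ring
  · show dt x (pt (-(1 / 2)) (Real.sqrt 3 / 2) 0) = _
    rw [dt_pt]; ring
  · show dt x (pt (-(1 / 2)) (-(Real.sqrt 3 / 2)) 0) = _
    rw [dt_pt]; ring

theorem ss3 : Real.sqrt 3 / 2 * (Real.sqrt 3 / 2) = 3 / 4 := by
  have hq : Real.sqrt 3 * Real.sqrt 3 = 3 := Real.mul_self_sqrt (by norm_num)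
  have : Real.sqrt 3 / 2 * (Real.sqrt 3 / 2) = (Real.sqrt 3 * Real.sqrt 3) / 4 := by ring
  rw [this, hq]

theorem vY_pt (a b : ℝ) : dt (pt a b 0) (vY 0) = a ∧
    dt (pt a b 0) (vY 1) = -(a / 2) + Real.sqrt 3 / 2 * b ∧
    dt (pt a b 0) (vY 2) = -(a / 2) - Real.sqrt 3 / 2 * b := by
  obtain ⟨e0, e1, e2⟩ := vY_dt (pt a b 0)
  rw [pt0] at e0 e1 e2
  rw [pt1] at e1 e2
  exact ⟨e0, e1, e2⟩

theorem vY_val (a c : ℝ) : dt (pt a (c * (Real.sqrt 3 / 2)) 0) (vY 0) = a ∧
    dt (pt a (c * (Real.sqrt 3 / 2)) 0) (vY 1) = -(a / 2) + 3 / 4 * c ∧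
    dt (pt a (c * (Real.sqrt 3 / 2)) 0) (vY 2) = -(a / 2) - 3 / 4 * c := by
  obtain ⟨e0, e1, e2⟩ := vY_pt a (c * (Real.sqrt 3 / 2))
  have h : Real.sqrt 3 / 2 * (c * (Real.sqrt 3 / 2)) = 3 / 4 * c := by
    have : Real.sqrt 3 / 2 * (c * (Real.sqrt 3 / 2)) =
      (Real.sqrt 3 / 2 * (Real.sqrt 3 / 2)) * c := by ring
    rw [this, ss3]
  rw [h] at e1 e2
  exact ⟨e0, e1, e2⟩

theorem Sg3 (v : Fin 3 → E3) (x : E3) (i : Fin 3)
    (h0 : (0 : Fin 3) ≠ i → dt x (v i) < dt x (v 0))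
    (h1 : (1 : Fin 3) ≠ i → dt x (v i) < dt x (v 1))
    (h2 : (2 : Fin 3) ≠ i → dt x (v i) < dt x (v 2)) : x ∈ Sg v i := by
  intro j hj
  fin_cases j
  · exact h0 hj
  · exact h1 hj
  · exact h2 hj

theorem Sg4 (v : Fin 4 → E3) (x : E3) (i : Fin 4)
    (h0 : (0 : Fin 4) ≠ i → dt x (v i) < dt x (v 0))
    (h1 : (1 : Fin 4) ≠ i → dt x (v i) < dt x (v 1))
    (h2 : (2 : Fin 4) ≠ i → dt x (v i) < dt x (v 2))
    (h3 : (3 : Fin 4) ≠ i → dt x (v i) < dt x (v 3)) : x ∈ Sg v i := by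
  intro j hj
  fin_cases j
  · exact h0 hj
  · exact h1 hj
  · exact h2 hj
  · exact h3 hj

theorem adjY : Adj vY := by
  obtain ⟨a0, a1, a2⟩ := vY_val (-1) 0
  obtain ⟨b0, b1, b2⟩ := vY_val (1 / 2) (-1)
  obtain ⟨c0, c1, c2⟩ := vY_val (1 / 2) 1
  obtain ⟨p0, p1, p2⟩ := vY_val 1 0
  obtain ⟨q0, q1, q2⟩ := vY_val (-(1 / 2)) 1
  obtain ⟨r0, r1, r2⟩ := vY_val (-(1 / 2)) (-1)
  constructor
  · intro i
    fin_cases i
    · refine ⟨_, Sg3 vY (pt (-1) (0 * (Real.sqrt 3 / 2)) 0) 0 (fun h => absurd rfl h)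
        (fun _ => ?_) (fun _ => ?_)⟩
      · rw [a0, a1]; norm_num
      · rw [a0, a2]; norm_num
    · refine ⟨_, Sg3 vY (pt (1 / 2) (-1 * (Real.sqrt 3 / 2)) 0) 1 (fun _ => ?_)
        (fun h => absurd rfl h) (fun _ => ?_)⟩
      · rw [b0, b1]; norm_num
      · rw [b1, b2]; norm_num
    · refine ⟨_, Sg3 vY (pt (1 / 2) (1 * (Real.sqrt 3 / 2)) 0) 2 (fun _ => ?_) (fun _ => ?_)
        (fun h => absurd rfl h)⟩
      · rw [c0, c2]; norm_num
      · rw [c1, c2]; norm_num
  · have h01 : ∃ y : E3, dt y (vY 0) = dt y (vY 1) ∧ dt y (vY 0) < dt y (vY 2) :=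
      ⟨_, by rw [r0, r1]; norm_num, by rw [r0, r2]; norm_num⟩
    have h02 : ∃ y : E3, dt y (vY 0) = dt y (vY 2) ∧ dt y (vY 0) < dt y (vY 1) :=
      ⟨_, by rw [q0, q2]; norm_num, by rw [q0, q1]; norm_num⟩
    have h12 : ∃ y : E3, dt y (vY 1) = dt y (vY 2) ∧ dt y (vY 1) < dt y (vY 0) :=
      ⟨_, by rw [p1, p2]; norm_num, by rw [p1, p0]; norm_num⟩
    obtain ⟨y, hy, hy'⟩ := h01
    obtain ⟨z, hz, hz'⟩ := h02
    obtain ⟨w, hw, hw'⟩ := h12
    intro i j hij
    fin_cases i <;> fin_cases j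
    · exact absurd rfl hij
    · refine ⟨y, hy, fun k h h' => ?_⟩
      fin_cases k
      · exact absurd rfl h
      · exact absurd rfl h'
      · exact hy'
    · refine ⟨z, hz, fun k h h' => ?_⟩
      fin_cases k
      · exact absurd rfl h
      · exact hz'
      · exact absurd rfl h'
    · refine ⟨y, hy.symm, fun k h h' => ?_⟩
      fin_cases k
      · exact absurd rfl h'
      · exact absurd rfl h
      · exact hy.symm.trans_lt hy'
    · exact absurd rfl hij
    · refine ⟨w, hw, fun k h h' => ?_⟩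
      fin_cases k
      · exact hw'
      · exact absurd rfl h
      · exact absurd rfl h'
    · refine ⟨z, hz.symm, fun k h h' => ?_⟩
      fin_cases k
      · exact absurd rfl h'
      · exact hz.symm.trans_lt hz'
      · exact absurd rfl h
    · refine ⟨w, hw.symm, fun k h h' => ?_⟩
      fin_cases k
      · exact hw.symm.trans_lt hw'
      · exact absurd rfl h'
      · exact absurd rfl h
    · exact absurd rfl hij

theorem tv_val (a b c : ℝ) : dt (pt a b c) (tv 0) = a + b + c ∧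
    dt (pt a b c) (tv 1) = a - b - c ∧ dt (pt a b c) (tv 2) = -a + b - c ∧
    dt (pt a b c) (tv 3) = -a - b + c := by
  obtain ⟨e0, e1, e2, e3⟩ := tv_dt (pt a b c)
  rw [pt0, pt1, pt2] at e0 e1 e2 e3
  exact ⟨e0, e1, e2, e3⟩

theorem adjT : Adj tv := by
  constructor
  · intro i
    fin_cases i
    · obtain ⟨a0, a1, a2, a3⟩ := tv_val (-1) (-1) (-1)
      refine ⟨_, Sg4 tv (pt (-1) (-1) (-1)) 0 (fun h => absurd rfl h)
        (fun _ => ?_) (fun _ => ?_) (fun _ => ?_)⟩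
      · rw [a0, a1]; norm_num
      · rw [a0, a2]; norm_num
      · rw [a0, a3]; norm_num
    · obtain ⟨a0, a1, a2, a3⟩ := tv_val (-1) 1 1
      refine ⟨_, Sg4 tv (pt (-1) 1 1) 1 (fun _ => ?_) (fun h => absurd rfl h)
        (fun _ => ?_) (fun _ => ?_)⟩
      · rw [a1, a0]; norm_num
      · rw [a1, a2]; norm_num
      · rw [a1, a3]; norm_num
    · obtain ⟨a0, a1, a2, a3⟩ := tv_val 1 (-1) 1
      refine ⟨_, Sg4 tv (pt 1 (-1) 1) 2 (fun _ => ?_) (fun _ => ?_) (fun h => absurd rfl h)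
        (fun _ => ?_)⟩
      · rw [a2, a0]; norm_num
      · rw [a2, a1]; norm_num
      · rw [a2, a3]; norm_num
    · obtain ⟨a0, a1, a2, a3⟩ := tv_val 1 1 (-1)
      refine ⟨_, Sg4 tv (pt 1 1 (-1)) 3 (fun _ => ?_) (fun _ => ?_) (fun _ => ?_)
        (fun h => absurd rfl h)⟩
      · rw [a3, a0]; norm_num
      · rw [a3, a1]; norm_num
      · rw [a3, a2]; norm_num
  · intro i j hij
    fin_cases i <;> fin_cases j <;>
      simp only [Fin.zero_eta, Fin.mk_one, Fin.reduceFinMk, ne_eq, not_true_eq_false] at hij ⊢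
    all_goals first
      | (obtain ⟨a0, a1, a2, a3⟩ := tv_val (-2) 0 0
         refine ⟨pt (-2) 0 0, ?_, ?_⟩
         · simp only [a0, a1, a2, a3]; norm_num
         · intro k h h'
           fin_cases k <;>
             simp only [Fin.zero_eta, Fin.mk_one, Fin.reduceFinMk, ne_eq, not_true_eq_false,
               a0, a1, a2, a3] at h h' ⊢ <;> norm_num)
      | (obtain ⟨a0, a1, a2, a3⟩ := tv_val 0 (-2) 0
         refine ⟨pt 0 (-2) 0, ?_, ?_⟩
         · simp only [a0, a1, a2, a3]; norm_num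
         · intro k h h'
           fin_cases k <;>
             simp only [Fin.zero_eta, Fin.mk_one, Fin.reduceFinMk, ne_eq, not_true_eq_false,
               a0, a1, a2, a3] at h h' ⊢ <;> norm_num)
      | (obtain ⟨a0, a1, a2, a3⟩ := tv_val 0 0 (-2)
         refine ⟨pt 0 0 (-2), ?_, ?_⟩
         · simp only [a0, a1, a2, a3]; norm_num
         · intro k h h'
           fin_cases k <;>
             simp only [Fin.zero_eta, Fin.mk_one, Fin.reduceFinMk, ne_eq, not_true_eq_false,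
               a0, a1, a2, a3] at h h' ⊢ <;> norm_num)
      | (obtain ⟨a0, a1, a2, a3⟩ := tv_val 2 0 0
         refine ⟨pt 2 0 0, ?_, ?_⟩
         · simp only [a0, a1, a2, a3]; norm_num
         · intro k h h'
           fin_cases k <;>
             simp only [Fin.zero_eta, Fin.mk_one, Fin.reduceFinMk, ne_eq, not_true_eq_false,
               a0, a1, a2, a3] at h h' ⊢ <;> norm_num)
      | (obtain ⟨a0, a1, a2, a3⟩ := tv_val 0 2 0
         refine ⟨pt 0 2 0, ?_, ?_⟩
         · simp only [a0, a1, a2, a3]; norm_num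
         · intro k h h'
           fin_cases k <;>
             simp only [Fin.zero_eta, Fin.mk_one, Fin.reduceFinMk, ne_eq, not_true_eq_false,
               a0, a1, a2, a3] at h h' ⊢ <;> norm_num)
      | (obtain ⟨a0, a1, a2, a3⟩ := tv_val 0 0 2
         refine ⟨pt 0 0 2, ?_, ?_⟩
         · simp only [a0, a1, a2, a3]; norm_num
         · intro k h h'
           fin_cases k <;>
             simp only [Fin.zero_eta, Fin.mk_one, Fin.reduceFinMk, ne_eq, not_true_eq_false,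
               a0, a1, a2, a3] at h h' ⊢ <;> norm_num)

theorem dt_cont (w : E3) : Continuous fun x : E3 => dt x w := by
  unfold dt
  fun_prop

theorem gen (m : ℕ) (v : Fin m → E3) (hm : 0 < m) :
    (∀ i, IsOpen (Sg v i) ∧ Convex ℝ (Sg v i) ∧ ∀ x ∈ Sg v i, ∀ t : ℝ, 0 < t → t • x ∈ Sg v i) ∧
    (∀ i j, i ≠ j → Disjoint (Sg v i) (Sg v j)) ∧ (Cn v)ᶜ = ⋃ i, Sg v i := by
  refine ⟨fun i => ⟨?_, ?_, ?_⟩, ?_, ?_⟩
  · have h : Sg v i = ⋂ j, {x : E3 | j ≠ i → dt x (v i) < dt x (v j)} := by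
      ext x
      simp [Sg]
    rw [h]
    apply isOpen_iInter_of_finite
    intro j
    by_cases hj : j = i
    · have : {x : E3 | j ≠ i → dt x (v i) < dt x (v j)} = univ := by
        ext x
        simp [hj]
      rw [this]
      exact isOpen_univ
    · have : {x : E3 | j ≠ i → dt x (v i) < dt x (v j)} =
          {x : E3 | dt x (v i) < dt x (v j)} := by
        ext x
        simp [hj]
      rw [this]
      exact isOpen_lt (dt_cont _) (dt_cont _)
  · intro x hx y hy a b ha hb hab j hj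
    have h1 := hx j hj
    have h2 := hy j hj
    rw [dt_comb, dt_comb]
    rcases ha.eq_or_lt with h | h
    · have hb1 : b = 1 := by linarith
      rw [← h, hb1]
      linarith
    · have h3 : a * dt x (v i) < a * dt x (v j) := mul_lt_mul_of_pos_left h1 h
      have h4 : b * dt y (v i) ≤ b * dt y (v j) := mul_le_mul_of_nonneg_left h2.le hb
      linarith
  · intro x hx t ht j hj
    rw [dt_smul, dt_smul]
    exact mul_lt_mul_of_pos_left (hx j hj) ht
  · intro i j hij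
    rw [Set.disjoint_left]
    intro x hx hx'
    have h1 := hx j (Ne.symm hij)
    have h2 := hx' i hij
    linarith
  · ext x
    rw [mem_iUnion]
    constructor
    · intro hx
      haveI : Nonempty (Fin m) := ⟨⟨0, hm⟩⟩
      obtain ⟨i, hi⟩ := Finite.exists_min fun j => dt x (v j)
      refine ⟨i, fun j hj => ?_⟩
      rcases (hi j).lt_or_eq with h | h
      · exact h
      · exact absurd (⟨i, j, Ne.symm hj, h, hi⟩ : x ∈ Cn v) hx
    · rintro ⟨i, hi⟩ ⟨i', j', hne, he, hmin⟩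
      by_cases h : i' = i
      · subst h
        have := hi j' (Ne.symm hne)
        linarith
      · have h1 := hi i' h
        have h2 := hmin i
        linarith

theorem hCNE : StCNE := ⟨cnY, cnT, cnP, adjP, adjY, adjT, gen⟩

end Pool.Agent.Helper1.MC
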